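import Pool.Agent.Lib.MP_02c850_pr.Main

/-! The limiting final density of the heterogeneous bootstrap rule exists and is continuous. -/

open Filter Topology

theorem Pool.Agent.Results.MP_02c850_pr.Continuity.result (l : ℕ) (_hl : 2 ≤ l) :
    ∃ φ : ℝ → ℝ, ∀ a : ℝ, 0 < a →
      Tendsto (fun ε => Pool.Agent.Lib.MP_02c850_pr.finalProb l a ε) (nhdsWithin 0 (Set.Ioi 0))
        (nhds (φ a)) ∧ ContinuousAt φ a :=
  Pool.Agent.Lib.MP_02c850_pr.limit_continuous fun _ ha _ hη =>
    Pool.Agent.Lib.MP_02c850_pr.approx_final l ha hη
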